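import Pool.Agent.Helper17.TH.GoalsII

/-!
# Project TH, S_CNT: counting the roots `ξ (ζ - 1)` of a polynomial over `ℤ_p`
-/

set_option autoImplicit false

namespace Pool.Agent.Helper77.TH

open Polynomial Pool.Agent.Helper17.TH

section norms

variable {p : ℕ} [hp : Fact p.Prime]

lemma norm_root {ζ : ℂ_[p]} {n : ℕ} (hn : n ≠ 0) (h : ζ ^ n = 1) : ‖ζ‖ = 1 := by
  have h1 : ‖ζ‖ ^ n = 1 := by rw [← norm_pow, h, norm_one]
  exact (pow_eq_one_iff_of_nonneg (norm_nonneg _) hn).mp h1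

lemma norm_le (ζ : ℂ_[p]) (h1 : ‖ζ‖ = 1) (a : ℕ) : ‖1 - ζ ^ a‖ ≤ ‖1 - ζ‖ := by
  have h2 : (1 - ζ) * ∑ i ∈ Finset.range a, ζ ^ i = 1 - ζ ^ a := mul_neg_geom_sum ζ a
  rw [← h2, norm_mul]
  have h3 : ‖∑ i ∈ Finset.range a, ζ ^ i‖ ≤ 1 := by
    refine IsUltrametricDist.norm_sum_le_of_forall_le_of_nonneg zero_le_one fun i _ => ?_
    rw [norm_pow, h1, one_pow]
  calc ‖1 - ζ‖ * ‖∑ i ∈ Finset.range a, ζ ^ i‖ ≤ ‖1 - ζ‖ * 1 :=
        mul_le_mul_of_nonneg_left h3 (norm_nonneg _)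
    _ = _ := mul_one _

lemma norm_same {ζ μ : ℂ_[p]} {n : ℕ} (hn : 0 < n) (hζ : IsPrimitiveRoot ζ n)
    (hμ : IsPrimitiveRoot μ n) : ‖1 - μ‖ = ‖1 - ζ‖ := by
  have : NeZero n := ⟨hn.ne'⟩
  refine le_antisymm ?_ ?_
  · obtain ⟨a, -, rfl⟩ := hζ.eq_pow_of_pow_eq_one hμ.pow_eq_one
    exact norm_le ζ (norm_root hn.ne' hζ.pow_eq_one) a
  · obtain ⟨a, -, rfl⟩ := hμ.eq_pow_of_pow_eq_one hζ.pow_eq_one
    exact norm_le μ (norm_root hn.ne' hμ.pow_eq_one) a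

lemma norm_p : ‖(p : ℂ_[p])‖ = (p : ℝ)⁻¹ := by
  have h := PadicComplex.norm_extends' p (p : ℚ_[p])
  rw [Padic.norm_p] at h
  rw [← h]
  congr 1
  exact (map_natCast (algebraMap ℚ_[p] ℂ_[p]) p).symm

lemma norm_pow_tot {ζ : ℂ_[p]} {n : ℕ} (hζ : IsPrimitiveRoot ζ (p ^ (n + 1))) :
    ‖1 - ζ‖ ^ Nat.totient (p ^ (n + 1)) = (p : ℝ)⁻¹ := by
  have h1 : eval 1 (cyclotomic (p ^ (n + 1)) ℂ_[p]) = p := eval_one_cyclotomic_prime_pow n
  rw [cyclotomic_eq_prod_X_sub_primitiveRoots hζ, eval_prod] at h1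
  have h2 := congrArg norm h1
  rw [norm_p, norm_prod] at h2
  rw [← h2, ← hζ.card_primitiveRoots]
  symm
  refine Finset.prod_eq_pow_card fun μ hμ => ?_
  have hpos : 0 < p ^ (n + 1) := pow_pos hp.out.pos _
  rw [eval_sub, eval_X, eval_C]
  exact norm_same hpos hζ ((mem_primitiveRoots hpos).mp hμ)

lemma norm_lt_one {ζ : ℂ_[p]} {n : ℕ} (hn : 1 ≤ n) (hζ : IsPrimitiveRoot ζ (p ^ n)) :
    ‖1 - ζ‖ < 1 := by
  obtain ⟨n, rfl⟩ : ∃ m, n = m + 1 := ⟨n - 1, by omega⟩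
  have h := norm_pow_tot hζ
  by_contra hcon
  have h1 : 1 ≤ ‖1 - ζ‖ ^ Nat.totient (p ^ (n + 1)) := one_le_pow₀ (not_lt.mp hcon)
  rw [h] at h1
  have h2 : (p : ℝ)⁻¹ < 1 := inv_lt_one_of_one_lt₀ (by exact_mod_cast hp.out.one_lt)
  linarith

lemma norm_inj {ζ μ : ℂ_[p]} {n m : ℕ} (hn : 1 ≤ n) (hm : 1 ≤ m)
    (hζ : IsPrimitiveRoot ζ (p ^ n)) (hμ : IsPrimitiveRoot μ (p ^ m)) (h : ‖1 - ζ‖ = ‖1 - μ‖) :
    n = m := by
  have hlt := norm_lt_one hn hζ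
  obtain ⟨n, rfl⟩ : ∃ k, n = k + 1 := ⟨n - 1, by omega⟩
  obtain ⟨m, rfl⟩ : ∃ k, m = k + 1 := ⟨m - 1, by omega⟩
  have h1 := norm_pow_tot hζ
  have h2 := norm_pow_tot hμ
  rw [← h, ← h1] at h2
  have hp0 : (0 : ℝ) < (p : ℝ)⁻¹ := inv_pos.mpr (by exact_mod_cast hp.out.pos)
  have hpos : 0 < ‖1 - ζ‖ := by
    by_contra hcon
    have h3 : ‖1 - ζ‖ = 0 := le_antisymm (not_lt.mp hcon) (norm_nonneg _)
    rw [h3, zero_pow (Nat.totient_pos.mpr (pow_pos hp.out.pos _)).ne'] at h1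
    exact hp0.ne h1
  have h3 := pow_right_injective₀ hpos hlt.ne h2
  rw [Nat.totient_prime_pow_succ hp.out, Nat.totient_prime_pow_succ hp.out] at h3
  have h4 := Nat.eq_of_mul_eq_mul_right (by have := hp.out.two_le; omega) h3
  rw [Nat.pow_right_injective hp.out.two_le h4]

/-- elements algebraic over `ℚ_p` come from the algebraic closure -/
lemma norm_alg (t : ℂ_[p]) (ht : IsIntegral ℚ_[p] t) : ‖t‖ = spectralValue (minpoly ℚ_[p] t) := by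
  have h1 : IsIntegral (PadicAlgCl p) t := ht.tower_top
  have h2 : (minpoly (PadicAlgCl p) t).degree = 1 :=
    IsAlgClosed.degree_eq_one_of_irreducible _ (minpoly.irreducible h1)
  obtain ⟨a, rfl⟩ := minpoly.mem_range_of_degree_eq_one _ _ h2
  have h3 : minpoly ℚ_[p] (algebraMap (PadicAlgCl p) ℂ_[p] a) = minpoly ℚ_[p] a :=
    minpoly.algebraMap_eq (algebraMap (PadicAlgCl p) ℂ_[p]).injective a
  rw [h3]
  have h4 := PadicComplex.norm_extends p a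
  rw [← PadicAlgCl.spectralNorm_eq] at h4
  exact h4

lemma norm_zc (a : ℤ_[p]) : ‖zc p a‖ = ‖a‖ :=
  PadicComplex.norm_extends' p (a : ℚ_[p])

lemma norm_eval (q : ℤ_[p][X]) (t : ℂ_[p]) (ht : ‖t‖ ≤ 1) : ‖q.eval₂ (zc p) t‖ ≤ 1 := by
  rw [eval₂_eq_sum_range]
  refine IsUltrametricDist.norm_sum_le_of_forall_le_of_nonneg zero_le_one fun i _ => ?_
  rw [norm_mul, norm_zc, norm_pow]
  exact mul_le_one₀ (PadicInt.norm_le_one _) (by positivity) (pow_le_one₀ (norm_nonneg _) ht)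

lemma dvd_const (h : ℤ_[p][X]) (t : ℂ_[p]) (ht : ‖t‖ < 1) (h0 : h.eval₂ (zc p) t = 0) :
    (p : ℤ_[p]) ∣ h.eval 0 := by
  rw [← coeff_zero_eq_eval_zero, ← PadicInt.norm_lt_one_iff_dvd, ← norm_zc]
  rw [← divX_mul_X_add h, eval₂_add, eval₂_mul, eval₂_X, eval₂_C] at h0
  have h1 : zc p (h.coeff 0) = -(h.divX.eval₂ (zc p) t * t) := by linear_combination h0
  rw [h1, norm_neg, norm_mul]
  calc _ ≤ 1 * ‖t‖ := mul_le_mul_of_nonneg_right (norm_eval _ t ht.le) (norm_nonneg _)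
    _ < 1 := by rwa [one_mul]

end norms

lemma prod_dvd {ι R : Type*} [CommRing R] [IsDomain R] (s : Finset ι) (h : ι → R)
    (hp : ∀ i ∈ s, Prime (h i)) (hne : ∀ i ∈ s, ∀ j ∈ s, i ≠ j → ¬ h i ∣ h j) (D : R)
    (hd : ∀ i ∈ s, h i ∣ D) : ∏ i ∈ s, h i ∣ D := by
  classical
  induction s using Finset.induction_on with
  | empty => simp
  | insert a s ha ih =>
    obtain ⟨E, hE⟩ := ih (fun i hi => hp i (Finset.mem_insert_of_mem hi))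
      (fun i hi j hj => hne i (Finset.mem_insert_of_mem hi) j (Finset.mem_insert_of_mem hj))
      (fun i hi => hd i (Finset.mem_insert_of_mem hi))
    have h1 := hd a (Finset.mem_insert_self a s)
    have h2 := hp a (Finset.mem_insert_self a s)
    rw [hE] at h1
    rw [Finset.prod_insert ha, hE]
    rcases h2.dvd_or_dvd h1 with h3 | h3
    · obtain ⟨j, hj, hj'⟩ := (h2.dvd_finsetProd_iff _).mp h3
      exact absurd hj' (hne a (Finset.mem_insert_self a s) j (Finset.mem_insert_of_mem hj)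
        (fun h => ha (h ▸ hj)))
    · rw [mul_comm]
      exact mul_dvd_mul_left _ h3

lemma abs_cnt {p : ℕ} [hp : Fact p.Prime] {L : Type} [Field L] [Algebra ℤ_[p] L]
    [Algebra ℚ_[p] L] [IsScalarTower ℤ_[p] ℚ_[p] L] (N : ℕ) (D : ℤ_[p][X])
    (hD : D.eval 0 = (p : ℤ_[p]) ^ N) (s : Finset ℕ) (t : ℕ → L)
    (hti : ∀ n ∈ s, IsIntegral ℤ_[p] (t n))
    (hroot : ∀ n ∈ s, D.eval₂ (algebraMap ℤ_[p] L) (t n) = 0)
    (hinj : ∀ n ∈ s, ∀ m ∈ s, minpoly ℚ_[p] (t n) = minpoly ℚ_[p] (t m) → n = m)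
    (hc : ∀ n ∈ s, ∀ h : ℤ_[p][X], h.eval₂ (algebraMap ℤ_[p] L) (t n) = 0 →
      (p : ℤ_[p]) ∣ h.eval 0) : s.card ≤ N := by
  have htf : Module.IsTorsionFree ℤ_[p] L := by
    rw [Module.isTorsionFree_iff_algebraMap_injective, IsScalarTower.algebraMap_eq ℤ_[p] ℚ_[p] L]
    exact (algebraMap ℚ_[p] L).injective.comp (IsFractionRing.injective ℤ_[p] ℚ_[p])
  have hprime : ∀ n ∈ s, Prime (minpoly ℤ_[p] (t n)) :=
    fun n hn => minpoly.prime_of_isIntegrallyClosed (hti n hn)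
  have hmonic : ∀ n ∈ s, (minpoly ℤ_[p] (t n)).Monic := fun n hn => minpoly.monic (hti n hn)
  have hdvd : ∀ n ∈ s, minpoly ℤ_[p] (t n) ∣ D := fun n hn =>
    minpoly.isIntegrallyClosed_dvd (hti n hn) (hroot n hn)
  have hne : ∀ n ∈ s, ∀ m ∈ s, n ≠ m → ¬ minpoly ℤ_[p] (t n) ∣ minpoly ℤ_[p] (t m) := by
    intro n hn m hm hnm hcon
    have h1 : minpoly ℤ_[p] (t n) = minpoly ℤ_[p] (t m) :=
      Polynomial.eq_of_monic_of_associated (hmonic n hn) (hmonic m hm)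
      ((hprime n hn).irreducible.associated_of_dvd (hprime m hm).irreducible hcon)
    apply hnm
    refine hinj n hn m hm ?_
    rw [minpoly.isIntegrallyClosed_eq_field_fractions' ℚ_[p] (hti n hn),
      minpoly.isIntegrallyClosed_eq_field_fractions' ℚ_[p] (hti m hm), h1]
  have hpd : ∀ n ∈ s, (p : ℤ_[p]) ∣ (minpoly ℤ_[p] (t n)).eval 0 :=
    fun n hn => hc n hn _ (minpoly.aeval ℤ_[p] (t n))
  obtain ⟨E, hE⟩ := prod_dvd s _ hprime hne D hdvd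
  have h1 : (p : ℤ_[p]) ^ s.card ∣ (p : ℤ_[p]) ^ N := by
    rw [← hD, hE, eval_mul, eval_prod, ← Finset.prod_const]
    exact Dvd.dvd.mul_right (Finset.prod_dvd_prod_of_dvd _ _ hpd) _
  have hpp : Prime (p : ℤ_[p]) := PadicInt.prime_p
  exact (pow_dvd_pow_iff hpp.ne_zero hpp.not_isUnit).mp h1

lemma integral_root {p : ℕ} [hp : Fact p.Prime] {ζ : ℂ_[p]} {n : ℕ} (hn : 0 < n)
    (h : ζ ^ n = 1) : (zc p).IsIntegralElem ζ := by
  refine ⟨X ^ n - 1, monic_X_pow_sub_C (1 : ℤ_[p]) hn.ne', ?_⟩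
  rw [eval₂_sub, eval₂_pow, eval₂_X, eval₂_one, h, sub_self]

/-- counting -/
theorem s_cnt : S_CNT := by
  intro p hp ξ d hd hξ N D hD s hs
  have hch : ∀ n : ℕ, ∃ ζ : ℂ_[p], n ∈ s → 1 ≤ n ∧ IsPrimitiveRoot ζ (p ^ n) ∧
      D.eval₂ (zc p) (ξ * (ζ - 1)) = 0 := by
    intro n
    by_cases hn : n ∈ s
    · obtain ⟨h1, ζ, h2, h3⟩ := hs n hn
      exact ⟨ζ, fun _ => ⟨h1, h2, h3⟩⟩
    · exact ⟨0, fun h => absurd h hn⟩
  choose ζ hζ using hch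
  have hξn : ‖ξ‖ = 1 := norm_root hd.ne' hξ
  have hnt : ∀ n, ‖ξ * (ζ n - 1)‖ = ‖1 - ζ n‖ := fun n => by
    rw [norm_mul, hξn, one_mul, norm_sub_rev]
  have hti : ∀ n ∈ s, (zc p).IsIntegralElem (ξ * (ζ n - 1)) := fun n hn =>
    (integral_root hd hξ).mul _ ((integral_root (pow_pos hp.out.pos n)
      (hζ n hn).2.1.pow_eq_one).sub _ (RingHom.isIntegralElem_one _))
  have htower : @IsScalarTower ℤ_[p] ℚ_[p] ℂ_[p] _ _ (zc p).toAlgebra.toSMul :=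
    @IsScalarTower.of_algebraMap_eq ℤ_[p] ℚ_[p] ℂ_[p] _ _ _ _ _ (zc p).toAlgebra fun x => rfl
  have htop : ∀ n ∈ s, IsIntegral ℚ_[p] (ξ * (ζ n - 1)) := fun n hn =>
    RingHom.IsIntegralElem.of_comp (hti n hn)
  refine @abs_cnt p hp ℂ_[p] _ (zc p).toAlgebra _ htower N D hD s (fun n => ξ * (ζ n - 1)) hti
    (fun n hn => (hζ n hn).2.2) ?_ ?_
  · intro n hn m hm h
    refine norm_inj (hζ n hn).1 (hζ m hm).1 (hζ n hn).2.1 (hζ m hm).2.1 ?_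
    rw [← hnt n, ← hnt m, norm_alg _ (htop n hn), norm_alg _ (htop m hm)]
    exact congrArg spectralValue h
  · intro n hn h hh
    refine dvd_const h (ξ * (ζ n - 1)) ?_ hh
    rw [hnt]
    exact norm_lt_one (hζ n hn).1 (hζ n hn).2.1

end Pool.Agent.Helper77.TH
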